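import Pool.Agent.E8helper7.CTV.CntL
import Pool.Agent.E8helper20.CTV.StmN

/-!
# Project CTV (helper20), piece CNT0: the number of the cube-free primary elements
-/

set_option autoImplicit false

open scoped Classical

namespace Pool.Agent.E8helper7.CTV

open Finset Filter Topology MeasureTheory
open Pool.Agent.Y692.QS (Ei w nr)
open Pool.Agent.Y699.E (nrm ZB mem_ZB nrm_cast)
open Pool.Agent.Y699.E.Lat
open Pool.Agent.E8helper20.CTK3 (ClsC3)

theorem GG_bound {g : ℝ} (hg : 0 < g)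
    (h : Tendsto (fun X : ℕ => (GG X : ℝ) / X) atTop (𝓝 g)) :
    ∀ δ : ℝ, 0 < δ → ∃ K : ℝ, 0 ≤ K ∧ ∀ X : ℕ, |(GG X : ℝ) - g * X| ≤ δ * X + K := by
  intro δ hδ
  obtain ⟨N, hN⟩ := Metric.tendsto_atTop.1 h δ hδ
  refine ⟨(16 + g) * N, by positivity, fun X => ?_⟩
  rcases Nat.eq_zero_or_pos X with h0 | h0
  · subst h0
    have := GG_le 0
    have h1 : (0 : ℝ) ≤ GG 0 := Nat.cast_nonneg _
    have h2 : (GG 0 : ℝ) = 0 := by
      simp at this
      simpa using this
    rw [h2]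
    simp
    positivity
  · have hX : (0 : ℝ) < X := by exact_mod_cast h0
    rcases le_or_gt N X with hNX | hNX
    · have h1 := hN X hNX
      rw [Real.dist_eq] at h1
      have e : (GG X : ℝ) - g * X = ((GG X : ℝ) / X - g) * X := by field_simp
      rw [e, abs_mul, abs_of_pos hX]
      have h2 : 0 ≤ (16 + g) * N := by positivity
      nlinarith
    · have h1 := GG_le X
      have h2 : (0 : ℝ) ≤ GG X := Nat.cast_nonneg _
      have h3 : (X : ℝ) ≤ N := by exact_mod_cast hNX.le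
      rw [abs_le]
      constructor <;> nlinarith [mul_pos hδ hX, mul_pos hg hX]

theorem FF_lim (hD : S_DEC) (hS : S_SUMB) : ∃ C : ℝ, 0 < C ∧
    Tendsto (fun X : ℕ => (FF X : ℝ) / X) atTop (𝓝 C) := by
  set g : ℝ := (volume : Measure (Fin 2 → ℝ)).real sE / 9 with hg
  have hg0 : 0 < g := by
    have := vol_pos
    positivity
  have hbd : BddAbove (Set.range sX) := ⟨1 / 2, by rintro _ ⟨X, rfl⟩; exact hS X⟩
  set s : ℝ := ⨆ X, sX X with hs
  have hsX : ∀ X, sX X ≤ s := fun X => le_ciSup hbd X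
  have hs1 : s ≤ 1 / 2 := ciSup_le fun X => hS X
  have hs0 : 0 ≤ s := le_trans (sum_nonneg fun _ _ => by positivity) (hsX 0)
  have hlim : ∀ δ : ℝ, 0 < δ → ∃ Z : ℕ, s - δ ≤ sX Z := by
    intro δ hδ
    obtain ⟨Z, hZ⟩ := exists_lt_of_lt_ciSup (show s - δ < ⨆ X, sX X by linarith)
    exact ⟨Z, hZ.le⟩
  set C : ℝ := g / (1 + s) with hC
  have hC0 : 0 < C := by positivity
  have hgC : g = C + C * s := by
    rw [hC]
    field_simp
  have hP : ∀ k : ℕ, ∃ K : ℝ, 0 ≤ K ∧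
      ∀ X : ℕ, |(FF X : ℝ) - C * X| ≤ (16 + C) * (3 / 4) ^ k * X + K := by
    intro k
    induction k with
    | zero =>
      refine ⟨0, le_rfl, fun X => ?_⟩
      have h1 : (FF X : ℝ) ≤ GG X := by exact_mod_cast FF_le_GG X
      have h2 := GG_le X
      have h3 : (0 : ℝ) ≤ FF X := Nat.cast_nonneg _
      have h4 : (0 : ℝ) ≤ C * X := by positivity
      rw [pow_zero, mul_one, add_zero, abs_le]
      constructor <;> nlinarith [Nat.cast_nonneg (α := ℝ) X]
    | succ k ih =>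
      have h5 := step hD hC0.le hgC hs0 hs1 hsX hlim (GG_bound hg0 GG_lim)
        (ε := (16 + C) * (3 / 4) ^ k) (by positivity) ih
      obtain ⟨K, hK0, hK⟩ := h5
      refine ⟨K, hK0, fun X => ?_⟩
      have := hK X
      rw [pow_succ]
      calc _ ≤ _ := this
        _ = _ := by ring
  refine ⟨C, hC0, Metric.tendsto_atTop.2 fun η hη => ?_⟩
  obtain ⟨k, hk⟩ := exists_pow_lt_of_lt_one (show 0 < η / 2 / (16 + C) by positivity)
    (show (3 / 4 : ℝ) < 1 by norm_num)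
  obtain ⟨K, hK0, hK⟩ := hP k
  obtain ⟨N, hN⟩ := exists_nat_gt (2 * K / η)
  refine ⟨N + 1, fun X hX => ?_⟩
  have hX1 : (0 : ℝ) < X := by
    have : 0 < X := by omega
    exact_mod_cast this
  have h6 := hK X
  have h7 : (16 + C) * (3 / 4) ^ k < η / 2 := by
    rw [lt_div_iff₀ (by positivity)] at hk
    linarith
  have h8 : K < η / 2 * X := by
    have h9 : (N : ℝ) < X := by exact_mod_cast (by omega : N < X)
    have h10 : 2 * K / η < X := hN.trans h9
    rw [div_lt_iff₀ hη] at h10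
    linarith
  rw [Real.dist_eq]
  have e : (FF X : ℝ) / X - C = ((FF X : ℝ) - C * X) / X := by field_simp
  rw [e, abs_div, abs_of_pos hX1, div_lt_iff₀ hX1]
  have h11 : (16 + C) * (3 / 4) ^ k * X < η / 2 * X := mul_lt_mul_of_pos_right h7 hX1
  linarith

theorem card_cls {X : ℕ} (hX : 1 ≤ X) :
    {D : Ei | nr D ≤ X ∧ ClsC3 D}.ncard = FF X - 1 := by
  have h1 : {D : Ei | nr D ≤ X ∧ ClsC3 D} =
      (((ZB X).filter fun D => (3 : Ei) ∣ D - 1 ∧ ∀ d : Ei, d ^ 3 ∣ D → IsUnit d).erase 1 :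
        Finset Ei) := by
    ext D
    rw [Finset.mem_coe, mem_erase, mem_filter, mem_ZB, Set.mem_setOf_eq]
    unfold ClsC3
    have h2 : nr D ≤ (X : ℤ) ↔ nrm D ≤ X := by
      rw [← nrm_cast]
      exact Nat.cast_le
    rw [h2]
    constructor
    · rintro ⟨a, b, ⟨-, c⟩, d⟩
      exact ⟨d, a, b, c⟩
    · rintro ⟨d, a, b, c⟩
      refine ⟨a, b, ⟨?_, c⟩, d⟩
      rintro rfl
      have := nrm_pos_of b
      have h0 : nrm (0 : Ei) = 0 := by decide
      omega
  rw [h1, Set.ncard_coe_finset, card_erase_of_mem, FF]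
  rw [mem_filter, mem_ZB, nrm_one']
  refine ⟨hX, by simp, fun d hd => ?_⟩
  exact isUnit_of_dvd_one ((dvd_pow_self d (by norm_num)).trans hd)

theorem t_CNT0 (hD : S_DEC) (hS : S_SUMB) : Pool.Agent.E8helper20.CTV.S_CNT0 := by
  obtain ⟨C, hC, h⟩ := FF_lim hD hS
  refine ⟨C, hC, ?_⟩
  have h1 : Tendsto (fun X : ℕ => (FF X : ℝ) / X - (X : ℝ)⁻¹) atTop (𝓝 (C - 0)) :=
    h.sub (tendsto_inv_atTop_zero.comp tendsto_natCast_atTop_atTop)
  rw [sub_zero] at h1
  refine h1.congr' ?_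
  filter_upwards [eventually_ge_atTop 1] with X hX
  have h2 : 1 ≤ FF X := by
    unfold FF
    refine Finset.card_pos.2 ⟨1, ?_⟩
    rw [mem_filter, mem_ZB, nrm_one']
    refine ⟨hX, by simp, fun d hd => ?_⟩
    exact isUnit_of_dvd_one ((dvd_pow_self d (by norm_num)).trans hd)
  rw [card_cls hX, Nat.cast_sub h2, Nat.cast_one, sub_div, one_div]

end Pool.Agent.E8helper7.CTV
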