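import Pool.Agent.Y699.E.Lat
import Pool.Agent.Y692.QS.Ei

/-!
# Project CTV (helper20), piece CNT0: lattice points in ellipses
-/

set_option autoImplicit false

namespace Pool.Agent.E8helper7.CTV

open Finset MeasureTheory Filter Topology Module
open scoped Pointwise
open Pool.Agent.Y692.QS (wC)
open Pool.Agent.Y699.E.Lat

/-- `p ↦ p₀ + p₁ ω` -/
noncomputable def TC : (Fin 2 → ℝ) →ₗ[ℝ] ℂ where
  toFun p := (p 0 : ℂ) + (p 1 : ℂ) * wC
  map_add' p q := by simp only [Pi.add_apply, Complex.ofReal_add]; ring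
  map_smul' r p := by
    simp only [Pi.smul_apply, smul_eq_mul, Complex.ofReal_mul, RingHom.id_apply, Complex.real_smul]
    ring

theorem TC_sq (p : Fin 2 → ℝ) : ‖TC p‖ ^ 2 = p 0 ^ 2 - p 0 * p 1 + p 1 ^ 2 := by
  rw [← Complex.normSq_eq_norm_sq]
  have h3 : Real.sqrt 3 * Real.sqrt 3 = 3 := Real.mul_self_sqrt (by norm_num)
  simp only [TC, LinearMap.coe_mk, AddHom.coe_mk, Complex.normSq_apply, wC]
  simp
  nlinarith

/-- the ellipse -/
def sE : Set (Fin 2 → ℝ) := {p | ‖TC p‖ ≤ 1}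

theorem TC_cont : Continuous TC := TC.continuous_of_finiteDimensional

theorem sE_bdd : Bornology.IsBounded sE := by
  refine (Metric.isBounded_closedBall (x := (0 : Fin 2 → ℝ)) (r := 2)).subset fun p hp => ?_
  have h1 : ‖TC p‖ ^ 2 ≤ 1 := by
    have : ‖TC p‖ ≤ 1 := hp
    nlinarith [norm_nonneg (TC p)]
  rw [TC_sq] at h1
  rw [mem_closedBall_zero_iff, pi_norm_le_iff_of_nonneg (by norm_num)]
  intro i
  rw [Real.norm_eq_abs]
  fin_cases i
  · refine abs_le.2 ⟨?_, ?_⟩ <;> simp only [Fin.zero_eta, Fin.isValue] <;>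
      nlinarith [sq_nonneg (p 0 - p 1), sq_nonneg (p 0 - 2), sq_nonneg (p 0 + 2), sq_nonneg (p 1)]
  · refine abs_le.2 ⟨?_, ?_⟩ <;> simp only [Fin.mk_one, Fin.isValue] <;>
      nlinarith [sq_nonneg (p 0 - p 1), sq_nonneg (p 1 - 2), sq_nonneg (p 1 + 2), sq_nonneg (p 0)]

theorem sE_closed : IsClosed sE := isClosed_le TC_cont.norm continuous_const

theorem sE_convex : Convex ℝ sE := by
  have : sE = TC ⁻¹' (Metric.closedBall 0 1) := by
    ext p
    simp [sE]
  rw [this]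
  exact (convex_closedBall (0 : ℂ) 1).linear_preimage TC

theorem sE_smul {x y : ℝ} (hx : 0 < x) (hxy : x ≤ y) : x • sE ⊆ y • sE := by
  have hy : 0 < y := hx.trans_le hxy
  rintro _ ⟨q, hq, rfl⟩
  refine ⟨y⁻¹ • (x • q), ?_, ?_⟩
  · show ‖TC (y⁻¹ • (x • q))‖ ≤ 1
    rw [map_smul, map_smul, norm_smul, norm_smul, Real.norm_of_nonneg hx.le,
      Real.norm_of_nonneg (inv_nonneg.2 hy.le)]
    have hq' : ‖TC q‖ ≤ 1 := hq
    rw [inv_mul_le_iff₀ hy, mul_one]
    nlinarith [norm_nonneg (TC q)]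
  · show y • (y⁻¹ • (x • q)) = x • q
    rw [smul_inv_smul₀ hy.ne']

theorem vol_pos : 0 < (volume : Measure (Fin 2 → ℝ)).real sE := by
  have h1 : Metric.ball (0 : Fin 2 → ℝ) (1 / 2) ⊆ sE := by
    intro p hp
    rw [mem_ball_zero_iff] at hp
    have h0 : |p 0| ≤ 1 / 2 := ((norm_le_pi_norm p 0).trans hp.le)
    have h1 : |p 1| ≤ 1 / 2 := ((norm_le_pi_norm p 1).trans hp.le)
    have h2 := abs_le.1 h0
    have h3 := abs_le.1 h1
    show ‖TC p‖ ≤ 1
    have h4 := TC_sq p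
    by_contra hc
    push Not at hc
    have h5 : 1 < ‖TC p‖ ^ 2 := by nlinarith
    rw [h4] at h5
    nlinarith [sq_nonneg (p 0 + p 1), sq_nonneg (p 0 - p 1), mul_nonneg (by linarith [h2.2] : 0 ≤ 1 / 2 - p 0) (by linarith [h2.1] : 0 ≤ p 0 + 1 / 2), mul_nonneg (by linarith [h3.2] : 0 ≤ 1 / 2 - p 1) (by linarith [h3.1] : 0 ≤ p 1 + 1 / 2)]
  have h2 : 0 < volume (Metric.ball (0 : Fin 2 → ℝ) (1 / 2)) :=
    Metric.measure_ball_pos _ _ (by norm_num)
  exact ENNReal.toReal_pos (h2.trans_le (measure_mono h1)).ne' sE_bdd.measure_lt_top.ne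

/-- the number of the lattice points in the ellipse -/
theorem card_lim : Tendsto (fun V : ℕ => ((ell V).card : ℝ) / V) atTop
    (𝓝 ((volume : Measure (Fin 2 → ℝ)).real sE)) := by
  have h1 := tendsto_card_div_pow_atTop_volume' sE sE_bdd sE_closed.measurableSet
    (sE_convex.addHaar_frontier volume) (fun x y hx hxy => sE_smul hx hxy)
  have h2 : Tendsto (fun V : ℕ => √(V : ℝ)) atTop atTop :=
    Real.tendsto_sqrt_atTop.comp tendsto_natCast_atTop_atTop
  have h3 := h1.comp h2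
  refine h3.congr' ?_
  filter_upwards [eventually_ge_atTop 1] with V hV
  have hV0 : (0 : ℝ) < V := by exact_mod_cast hV
  have hs : 0 < √(V : ℝ) := Real.sqrt_pos.2 hV0
  simp only [Function.comp]
  rw [Fintype.card_fin, Real.sq_sqrt hV0.le]
  congr 2
  set f : ℤ × ℤ → (Fin 2 → ℝ) := fun z => (√(V : ℝ))⁻¹ • ![(z.1 : ℝ), (z.2 : ℝ)] with hf
  have hinj : Function.Injective f := by
    intro a b hab
    have h4 := congrArg (fun v => √(V : ℝ) • v) hab
    simp only [hf, smul_inv_smul₀ hs.ne'] at h4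
    have h5 := congrFun h4 0
    have h6 := congrFun h4 1
    simp only [Matrix.cons_val_zero, Matrix.cons_val_one, Matrix.cons_val_fin_one] at h5 h6
    exact Prod.ext (by exact_mod_cast h5) (by exact_mod_cast h6)
  have hset : sE ∩ (√(V : ℝ))⁻¹ • (Submodule.span ℤ (Set.range (Pi.basisFun ℝ (Fin 2))) : Set (Fin 2 → ℝ)) =
      f '' (ell V : Set (ℤ × ℤ)) := by
    have hT : ∀ z : ℤ × ℤ, f z ∈ sE ↔ z ∈ ell V := by
      intro z
      rw [mem_ell]
      have e1 : ‖TC (f z)‖ ^ 2 = (V : ℝ)⁻¹ * (z.1 ^ 2 - z.1 * z.2 + z.2 ^ 2) := by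
        rw [TC_sq]
        simp only [hf, Pi.smul_apply, Matrix.cons_val_zero, Matrix.cons_val_one,
          Matrix.cons_val_fin_one, smul_eq_mul]
        have e2 : (√(V : ℝ))⁻¹ * (√(V : ℝ))⁻¹ = (V : ℝ)⁻¹ := by
          rw [← mul_inv, Real.mul_self_sqrt hV0.le]
        linear_combination (z.1 ^ 2 - z.1 * z.2 + z.2 ^ 2 : ℝ) * e2
      show ‖TC (f z)‖ ≤ 1 ↔ _
      rw [← abs_of_nonneg (norm_nonneg (TC (f z))), ← sq_le_one_iff_abs_le_one, e1,
        inv_mul_le_iff₀ hV0, mul_one]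
      constructor
      · intro h; exact_mod_cast h
      · intro h; exact_mod_cast h
    ext p
    constructor
    · rintro ⟨hp1, q, hq, rfl⟩
      have hq' := (Basis.mem_span_iff_repr_mem ℤ (Pi.basisFun ℝ (Fin 2)) q).1 hq
      obtain ⟨a, ha⟩ := hq' 0
      obtain ⟨b, hb⟩ := hq' 1
      have hqe : q = ![(a : ℝ), (b : ℝ)] := by
        ext i
        fin_cases i
        · simpa using ha.symm
        · simpa using hb.symm
      have hfe : f (a, b) = (√(V : ℝ))⁻¹ • q := by rw [hqe]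
      refine ⟨(a, b), ?_, hfe⟩
      have : f (a, b) ∈ sE := by rw [hfe]; exact hp1
      exact (hT (a, b)).1 this
    · rintro ⟨z, hz, rfl⟩
      refine ⟨(hT z).2 hz, ![(z.1 : ℝ), (z.2 : ℝ)], ?_, rfl⟩
      refine (Basis.mem_span_iff_repr_mem ℤ (Pi.basisFun ℝ (Fin 2)) _).2 fun i => ?_
      fin_cases i
      · exact ⟨z.1, by simp⟩
      · exact ⟨z.2, by simp⟩
  rw [hset, Nat.card_coe_set_eq, Set.ncard_image_of_injective _ hinj, Set.ncard_coe_finset]

end Pool.Agent.E8helper7.CTV
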