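import Pool.Agent.E8helper7.CTV.CntL

/-!
# Project CTV (helper20), piece CNT0: the sum over the cubes
-/

set_option autoImplicit false

open scoped Classical

namespace Pool.Agent.E8helper7.CTV

open Finset
open Pool.Agent.Y692.QS
open Pool.Agent.Y699.E (nrm ZB mem_ZB nrm_cast nrm_eq')

theorem box_sum (N : ℕ) :
    ∑ x ∈ Icc (-(N : ℤ)) N, 1 / (1 + |(x : ℝ)|) ^ 2 ≤ 3 - 2 / ((N : ℝ) + 1) := by
  induction N with
  | zero => norm_num
  | succ N ih =>
    have h1 : Icc (-((N + 1 : ℕ) : ℤ)) ((N + 1 : ℕ) : ℤ) =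
        insert (-((N + 1 : ℕ) : ℤ)) (insert ((N + 1 : ℕ) : ℤ) (Icc (-(N : ℤ)) N)) := by
      ext x
      simp only [mem_Icc, mem_insert]
      push_cast
      omega
    rw [h1, sum_insert, sum_insert]
    · have e1 : |(((-((N + 1 : ℕ) : ℤ)) : ℤ) : ℝ)| = (N : ℝ) + 1 := by
        push_cast
        rw [abs_of_nonpos (by linarith [Nat.cast_nonneg (α := ℝ) N])]
        ring
      have e2 : |((((N + 1 : ℕ) : ℤ)) : ℝ)| = (N : ℝ) + 1 := by
        push_cast
        rw [abs_of_nonneg (by positivity)]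
      rw [e1, e2]
      push_cast
      have hN : (0 : ℝ) ≤ N := Nat.cast_nonneg _
      have h3 : 2 / ((N : ℝ) + 1) - 2 / ((N : ℝ) + 1 + 1) = 2 / (((N : ℝ) + 1) * (N + 2)) := by
        field_simp
        ring
      have h4 : 1 / (1 + ((N : ℝ) + 1)) ^ 2 ≤ 1 / (((N : ℝ) + 1) * (N + 2)) := by
        apply one_div_le_one_div_of_le (by positivity)
        nlinarith
      have h5 : 2 / (((N : ℝ) + 1) * (N + 2)) = 2 * (1 / (((N : ℝ) + 1) * (N + 2))) := by ring
      linarith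
    · simp only [mem_Icc]
      push_cast
      omega
    · simp only [mem_Icc, mem_insert]
      push_cast
      omega

theorem two_m (x y : ℤ) (h0 : ¬ (x = 0 ∧ y = 0)) (h1 : ¬ (x = -1 ∧ y = -1)) :
    2 * ((1 + |x|) * (1 + |y|)) ≤ (1 + 3 * x) ^ 2 - (1 + 3 * x) * (3 * y) + (3 * y) ^ 2 := by
  rcases le_total 0 x with hx | hx <;> rcases le_total 0 y with hy | hy
  · rw [abs_of_nonneg hx, abs_of_nonneg hy]
    rcases eq_or_lt_of_le hy with h | h
    · subst h
      have : 1 ≤ x := by omega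
      nlinarith
    · have h2 : 1 ≤ y := by omega
      nlinarith [sq_nonneg (x - y), mul_nonneg hx hy]
  · rw [abs_of_nonneg hx, abs_of_nonpos hy]
    rcases eq_or_lt_of_le hx with h | h
    · subst h
      have : y ≤ -1 := by omega
      nlinarith
    · nlinarith [mul_nonneg hx (neg_nonneg.2 hy)]
  · rw [abs_of_nonpos hx, abs_of_nonneg hy]
    rcases eq_or_lt_of_le hx with h | h
    · subst h
      have : 1 ≤ y := by omega
      nlinarith
    · have h2 : x ≤ -1 := by omega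
      nlinarith [mul_nonneg (neg_nonneg.2 hx) hy]
  · rw [abs_of_nonpos hx, abs_of_nonpos hy]
    obtain ⟨a, rfl⟩ : ∃ a : ℕ, x = -(a : ℤ) := ⟨x.natAbs, by omega⟩
    obtain ⟨b, rfl⟩ : ∃ b : ℕ, y = -(b : ℤ) := ⟨y.natAbs, by omega⟩
    rcases Nat.lt_or_ge a 3 with ha | ha
    · interval_cases a
      · have hb : 1 ≤ (b : ℤ) := by omega
        push_cast
        nlinarith
      · rcases Nat.lt_or_ge b 2 with hb | hb
        · interval_cases b
          · norm_num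
          · exfalso; apply h1; norm_num
        · have hb' : 2 ≤ (b : ℤ) := by omega
          push_cast
          nlinarith
      · push_cast
        nlinarith [sq_nonneg ((b : ℤ) - 1), Int.natCast_nonneg b]
    · have ha' : 3 ≤ (a : ℤ) := by omega
      nlinarith [sq_nonneg ((a : ℤ) - b), Int.natCast_nonneg b]

theorem cube_ge (x y : ℤ) (h0 : ¬ (x = 0 ∧ y = 0)) :
    16 * ((1 + |x|) ^ 2 * (1 + |y|) ^ 2) ≤
      ((1 + 3 * x) ^ 2 - (1 + 3 * x) * (3 * y) + (3 * y) ^ 2) ^ 3 := by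
  by_cases h1 : x = -1 ∧ y = -1
  · obtain ⟨rfl, rfl⟩ := h1
    norm_num
  · have h2 := two_m x y h0 h1
    set n := (1 + 3 * x) ^ 2 - (1 + 3 * x) * (3 * y) + (3 * y) ^ 2 with hn
    set m := (1 + |x|) * (1 + |y|) with hm
    have hx := abs_nonneg x
    have hy := abs_nonneg y
    have hm2 : 2 ≤ m := by
      have : 1 ≤ |x| ∨ 1 ≤ |y| := by
        by_contra hc
        push Not at hc
        apply h0
        constructor
        · have : |x| = 0 := by omega
          exact abs_eq_zero.1 this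
        · have : |y| = 0 := by omega
          exact abs_eq_zero.1 this
      rcases this with h | h <;> nlinarith
    have e : (1 + |x|) ^ 2 * (1 + |y|) ^ 2 = m ^ 2 := by rw [hm]; ring
    rw [e]
    have h3 : (2 * m) ^ 3 ≤ n ^ 3 := pow_le_pow_left₀ (by linarith) h2 3
    nlinarith [sq_nonneg m]

theorem t_SUMB : S_SUMB := by
  intro X
  set N : ℕ := 2 * X + 2 with hN
  set B : Finset ℤ := Icc (-(N : ℤ)) N with hB
  set G : ℤ × ℤ → ℝ := fun z => 1 / 16 * ((1 / (1 + |(z.1 : ℝ)|) ^ 2) * (1 / (1 + |(z.2 : ℝ)|) ^ 2))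
    with hG
  set i : Ei → ℤ × ℤ := fun c => ((c.re - 1) / 3, c.im / 3) with hi
  have hG0 : ∀ z, 0 ≤ G z := fun z => by rw [hG]; positivity
  -- coordinates
  have hco : ∀ c : Ei, (3 : Ei) ∣ c - 1 → c.re = 1 + 3 * (i c).1 ∧ c.im = 3 * (i c).2 := by
    intro c hc
    have h1 : (((3 : ℤ) : Ei)) ∣ c - 1 := by exact_mod_cast hc
    obtain ⟨h2, h3⟩ := int_dvd.1 h1
    have e1 : (c - 1).re = c.re - 1 := by rw [QuadraticAlgebra.re_sub]; rfl
    have e2 : (c - 1).im = c.im := by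
      rw [QuadraticAlgebra.im_sub]
      show c.im - 0 = c.im
      ring
    rw [e1] at h2
    rw [e2] at h3
    simp only [hi]
    omega
  have hterm : ∀ c ∈ PP X, 1 / (nrm c : ℝ) ^ 3 ≤ G (i c) := by
    intro c hc
    obtain ⟨h1, h2, h3⟩ := mem_PP.1 hc
    obtain ⟨hre, him⟩ := hco c h2
    have hne : ¬ ((i c).1 = 0 ∧ (i c).2 = 0) := by
      rintro ⟨a, b⟩
      apply h3
      rw [a] at hre
      rw [b] at him
      ext
      · rw [hre]; rfl
      · rw [him]; rfl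
    have h4 := cube_ge _ _ hne
    rw [← hre, ← him] at h4
    have h5 := nrm_eq' c
    rw [← h5] at h4
    have h6 : (16 : ℝ) * ((1 + |((i c).1 : ℝ)|) ^ 2 * (1 + |((i c).2 : ℝ)|) ^ 2) ≤ (nrm c : ℝ) ^ 3 := by
      have : (((16 * ((1 + |(i c).1|) ^ 2 * (1 + |(i c).2|) ^ 2) : ℤ)) : ℝ) ≤
          (((nrm c : ℤ) ^ 3 : ℤ) : ℝ) := by exact_mod_cast h4
      push_cast at this
      exact this
    have e : G (i c) = 1 / (16 * ((1 + |((i c).1 : ℝ)|) ^ 2 * (1 + |((i c).2 : ℝ)|) ^ 2)) := by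
      rw [hG]
      field_simp
    rw [e]
    exact one_div_le_one_div_of_le (by positivity) h6
  have hinj : Set.InjOn i (PP X : Set Ei) := by
    intro c hc c' hc' h
    obtain ⟨a1, a2⟩ := hco c (mem_PP.1 hc).2.1
    obtain ⟨b1, b2⟩ := hco c' (mem_PP.1 hc').2.1
    ext
    · rw [a1, b1, h]
    · rw [a2, b2, h]
  have hsub : (PP X).image i ⊆ (B ×ˢ B).erase (0, 0) := by
    intro z hz
    obtain ⟨c, hc, rfl⟩ := mem_image.1 hz
    obtain ⟨h1, h2, h3⟩ := mem_PP.1 hc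
    obtain ⟨hre, him⟩ := hco c h2
    have h5 := nrm_eq' c
    have h6 : (nrm c : ℤ) ≤ X := by exact_mod_cast h1
    rw [h5] at h6
    have hr : c.re ^ 2 ≤ 2 * X := by nlinarith [sq_nonneg (c.re - 2 * c.im), sq_nonneg c.re]
    have hm : c.im ^ 2 ≤ 2 * X := by nlinarith [sq_nonneg (c.im - 2 * c.re), sq_nonneg c.im]
    have hr1 : -(2 * X : ℤ) ≤ c.re ∧ c.re ≤ 2 * X := by constructor <;> nlinarith
    have hm1 : -(2 * X : ℤ) ≤ c.im ∧ c.im ≤ 2 * X := by constructor <;> nlinarith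
    rw [mem_erase, mem_product, hB, mem_Icc, mem_Icc, hN]
    push_cast
    refine ⟨?_, ⟨by omega, by omega⟩, by omega, by omega⟩
    intro h
    apply h3
    have a : (i c).1 = 0 := congrArg Prod.fst h
    have b : (i c).2 = 0 := congrArg Prod.snd h
    rw [a] at hre
    rw [b] at him
    ext
    · rw [hre]; rfl
    · rw [him]; rfl
  have hS : ∑ x ∈ B, 1 / (1 + |(x : ℝ)|) ^ 2 ≤ 3 := by
    refine (box_sum N).trans ?_
    have : (0 : ℝ) ≤ 2 / ((N : ℝ) + 1) := by positivity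
    linarith
  have hS0 : 0 ≤ ∑ x ∈ B, 1 / (1 + |(x : ℝ)|) ^ 2 := sum_nonneg fun _ _ => by positivity
  have htot : ∑ z ∈ B ×ˢ B, G z ≤ 9 / 16 := by
    rw [sum_product]
    simp only [hG]
    simp_rw [← mul_sum]
    rw [← sum_mul]
    nlinarith
  have h00 : ((0, 0) : ℤ × ℤ) ∈ B ×ˢ B := by
    rw [mem_product, hB, mem_Icc]
    simp
  have her : ∑ z ∈ (B ×ˢ B).erase (0, 0), G z = ∑ z ∈ B ×ˢ B, G z - 1 / 16 := by
    rw [← add_sum_erase _ _ h00]
    have : G (0, 0) = 1 / 16 := by simp [hG]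
    rw [this]
    ring
  calc ∑ c ∈ (ZB X).filter (fun c => (3 : Ei) ∣ c - 1 ∧ c ≠ 1), 1 / (nrm c : ℝ) ^ 3
      = ∑ c ∈ PP X, 1 / (nrm c : ℝ) ^ 3 := rfl
    _ ≤ ∑ c ∈ PP X, G (i c) := sum_le_sum hterm
    _ = ∑ z ∈ (PP X).image i, G z := (sum_image hinj).symm
    _ ≤ ∑ z ∈ (B ×ˢ B).erase (0, 0), G z :=
        sum_le_sum_of_subset_of_nonneg hsub fun z _ _ => hG0 z
    _ ≤ 1 / 2 := by rw [her]; linarith

end Pool.Agent.E8helper7.CTV
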