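import Pool.Agent.E8helper7.CTV.CntL
import Pool.Agent.Y715.T.Rs

/-!
# Project CTV (helper20), piece CNT0: cubes and cube-free parts
-/

set_option autoImplicit false

open scoped Classical

namespace Pool.Agent.E8helper7.CTV

open Finset
open Pool.Agent.Y692.QS
open Pool.Agent.Y699.E (nrm ZB mem_ZB nrm_cast nrm_mul)

theorem prim_mul {a b : Ei} (ha : (3 : Ei) ∣ a - 1) (hb : (3 : Ei) ∣ b - 1) :
    (3 : Ei) ∣ a * b - 1 := by
  have : a * b - 1 = (a - 1) * b + (b - 1) := by ring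
  rw [this]
  exact dvd_add (Dvd.dvd.mul_right ha b) hb

theorem prim_pow {a : Ei} (ha : (3 : Ei) ∣ a - 1) (k : ℕ) : (3 : Ei) ∣ a ^ k - 1 := by
  induction k with
  | zero => simp
  | succ k ih => rw [pow_succ]; exact prim_mul ih ha

theorem prim_nr {a : Ei} (ha : (3 : Ei) ∣ a - 1) : ¬ (3 : ℤ) ∣ nr a := by
  obtain ⟨c, hc⟩ := ha
  have h1 : a = 1 + 3 * c := by linear_combination hc
  have h2 : nr a = 1 + 3 * (2 * c.re - c.im + 3 * nr c) := by
    have e1 : a.re = 1 + 3 * c.re := by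
      rw [h1]
      have e3 : (3 : Ei).re = 3 := rfl
      have e4 : (3 : Ei).im = 0 := rfl
      rw [QuadraticAlgebra.re_add, mul_re, e3, e4]
      show 1 + _ = _
      ring
    have e2 : a.im = 3 * c.im := by
      rw [h1]
      have e3 : (3 : Ei).re = 3 := rfl
      have e4 : (3 : Ei).im = 0 := rfl
      rw [QuadraticAlgebra.im_add, mul_im, e3, e4]
      show 0 + _ = _
      ring
    unfold nr
    rw [e1, e2]
    ring
  rw [h2]
  omega

theorem ep_ns {a : Ei} (h : ¬ (3 : ℤ) ∣ nr a) : ep a * ns a = a := by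
  unfold ns
  have h4 := (ep_cases a h).2
  linear_combination a * h4

theorem prim_ne {a : Ei} (ha : (3 : Ei) ∣ a - 1) : a ≠ 0 := by
  rintro rfl
  exact prim_nr ha (by decide)

theorem nrm_pow' (a : Ei) (k : ℕ) : nrm (a ^ k) = nrm a ^ k := by
  induction k with
  | zero => rw [pow_zero, pow_zero, nrm_one']
  | succ k ih => rw [pow_succ, pow_succ, nrm_mul, ih]

theorem isUnit_nrm {a : Ei} (h : nrm a = 1) : IsUnit a := by
  rw [isUnit_iff, ← nrm_cast, h]
  rfl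

/-- existence -/
theorem ex_dec {D : Ei} (hD : (3 : Ei) ∣ D - 1) : ∃ c E : Ei, (3 : Ei) ∣ c - 1 ∧
    (3 : Ei) ∣ E - 1 ∧ (∀ d : Ei, d ^ 3 ∣ E → IsUnit d) ∧ D = E * c ^ 3 := by
  have hD0 := prim_ne hD
  set S := (ZB (nrm D)).filter fun c => c ^ 3 ∣ D with hS
  have hne : S.Nonempty := ⟨1, by
    rw [hS, mem_filter, mem_ZB, nrm_one']
    exact ⟨nrm_pos_of hD, by simp⟩⟩
  obtain ⟨c, hc, hmax⟩ := exists_max_image S nrm hne
  obtain ⟨hc1, E, hE⟩ := mem_filter.1 hc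
  have hcf : ∀ d : Ei, d ^ 3 ∣ E → IsUnit d := by
    rintro d ⟨F, hF⟩
    have hd0 : d ≠ 0 := by
      rintro rfl
      apply hD0
      rw [hE, hF]
      ring
    have hdv : (c * d) ^ 3 ∣ D := ⟨F, by rw [hE, hF]; ring⟩
    have hcd0 : 0 < nrm c := by
      rcases Nat.eq_zero_or_pos (nrm c) with h0 | h0
      · exfalso
        have h1 : nr c = 0 := by rw [← nrm_cast, h0]; rfl
        have h2 : c = 0 := nr_zero_iff.1 h1
        apply hD0
        rw [hE, h2]
        ring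
      · exact h0
    have hle : nrm (c * d) ≤ nrm D := by
      obtain ⟨G, hG⟩ := hdv
      have h1 : nrm D = nrm (c * d) ^ 3 * nrm G := by rw [hG, nrm_mul, nrm_pow']
      have h2 : 0 < nrm D := nrm_pos_of hD
      have h3 : nrm (c * d) ∣ nrm D := by
        rw [h1]
        exact Dvd.dvd.mul_right (dvd_pow_self _ (by norm_num)) _
      exact Nat.le_of_dvd h2 h3
    have h1 := hmax (c * d) (mem_filter.2 ⟨mem_ZB.2 hle, hdv⟩)
    rw [nrm_mul] at h1
    have h2 : nrm d ≤ 1 := by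
      by_contra hc'
      push Not at hc'
      nlinarith
    have h3 : nrm d ≠ 0 := by
      intro h0
      apply hd0
      have : nr d = 0 := by rw [← nrm_cast, h0]; rfl
      exact nr_zero_iff.1 this
    exact isUnit_nrm (by omega)
  have h3D := prim_nr hD
  have hnr : nr D = nr c ^ 3 * nr E := by
    rw [hE, nr_mul]
    have : c ^ 3 = c * c * c := by ring
    rw [this, nr_mul, nr_mul]
    ring
  have h3c : ¬ (3 : ℤ) ∣ nr c := fun h => h3D (by
    rw [hnr]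
    exact Dvd.dvd.mul_right (dvd_pow h (by norm_num)) _)
  have h3E : ¬ (3 : ℤ) ∣ nr E := fun h => h3D (by
    rw [hnr]
    exact Dvd.dvd.mul_left h _)
  refine ⟨ns c, ns E, ns_one h3c, ns_one h3E, ?_, ?_⟩
  · intro d hd
    apply hcf
    rw [← ep_ns h3E]
    exact Dvd.dvd.mul_left hd _
  · have h4 := ns_fix hD
    have h5 : D = E * (c * c * c) := by rw [hE]; ring
    rw [h5, ns_mul, ns_mul, ns_mul] at h4
    rw [h5, ← h4]
    ring

/-- uniqueness -/
theorem uniq {c c' E E' : Ei} (hc : (3 : Ei) ∣ c - 1) (hc' : (3 : Ei) ∣ c' - 1)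
    (hE : ∀ d : Ei, d ^ 3 ∣ E → IsUnit d) (hE' : ∀ d : Ei, d ^ 3 ∣ E' → IsUnit d)
    (h : E * c ^ 3 = E' * c' ^ 3) : c = c' ∧ E = E' := by
  have hc0 := prim_ne hc
  obtain ⟨g, hg⟩ := (IsPrincipalIdealRing.principal (Ideal.span {c, c'})).principal
  have hgs : Ideal.span {c, c'} = Ideal.span {g} := hg
  have h1 : c ∈ Ideal.span {g} := by
    rw [← hgs]; exact Ideal.subset_span (by simp)
  have h2 : c' ∈ Ideal.span {g} := by
    rw [← hgs]; exact Ideal.subset_span (by simp)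
  obtain ⟨a, ha⟩ := Ideal.mem_span_singleton.1 h1
  obtain ⟨a', ha'⟩ := Ideal.mem_span_singleton.1 h2
  have h3 : g ∈ Ideal.span {c, c'} := by
    rw [hgs]; exact Ideal.mem_span_singleton_self g
  obtain ⟨x, y, hxy⟩ := Ideal.mem_span_pair.1 h3
  have hg0 : g ≠ 0 := by
    rintro rfl
    exact hc0 (by rw [ha, zero_mul])
  have hcop : IsCoprime a a' := by
    refine ⟨x, y, mul_left_cancel₀ hg0 ?_⟩
    calc g * (x * a + y * a') = x * (g * a) + y * (g * a') := by ring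
      _ = x * c + y * c' := by rw [← ha, ← ha']
      _ = g * 1 := by rw [hxy, mul_one]
  have heq : E * a ^ 3 = E' * a' ^ 3 := by
    have hg3 : g ^ 3 ≠ 0 := pow_ne_zero 3 hg0
    apply mul_left_cancel₀ hg3
    rw [ha, ha'] at h
    linear_combination h
  have hcop3 : IsCoprime (a ^ 3) (a' ^ 3) := hcop.pow
  have hau : IsUnit a := hE' a (hcop3.dvd_of_dvd_mul_right ⟨E, by rw [← heq]; ring⟩)
  have hau' : IsUnit a' := hE a' (hcop3.symm.dvd_of_dvd_mul_right ⟨E', by rw [heq]; ring⟩)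
  have hcc : c = c' := by
    have e1 := ns_fix hc
    have e2 := ns_fix hc'
    rw [← e1, ← e2, ha, ha', ns_mul, ns_mul, ns_unit hau, ns_unit hau']
  refine ⟨hcc, ?_⟩
  rw [← hcc] at h
  exact mul_right_cancel₀ (pow_ne_zero 3 hc0) h

theorem t_DEC : S_DEC := by
  intro X
  have hRHS : ∑ c ∈ (ZB X).filter (fun c => (3 : Ei) ∣ c - 1), FF (X / nrm c ^ 3) =
      (((ZB X).filter (fun c => (3 : Ei) ∣ c - 1)).sigma fun c => (ZB (X / nrm c ^ 3)).filter
        fun D => (3 : Ei) ∣ D - 1 ∧ ∀ d : Ei, d ^ 3 ∣ D → IsUnit d).card := by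
    rw [card_sigma]
    rfl
  rw [hRHS]
  unfold GG
  symm
  refine card_bij (fun p _ => p.2 * p.1 ^ 3) ?_ ?_ ?_
  · rintro ⟨c, E⟩ hp
    rw [mem_sigma, mem_filter, mem_filter, mem_ZB, mem_ZB] at hp
    obtain ⟨⟨h1, h2⟩, h3, h4, h5⟩ := hp
    rw [mem_filter, mem_ZB]
    have hn : 0 < nrm c ^ 3 := pow_pos (nrm_pos_of h2) 3
    refine ⟨?_, prim_mul h4 (prim_pow h2 3)⟩
    rw [nrm_mul, nrm_pow']
    exact (Nat.le_div_iff_mul_le hn).1 h3
  · rintro ⟨c, E⟩ hp ⟨c', E'⟩ hp' h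
    rw [mem_sigma, mem_filter, mem_filter] at hp hp'
    simp only at h hp hp'
    obtain ⟨e1, e2⟩ := uniq hp.1.2 hp'.1.2 hp.2.2.2 hp'.2.2.2 h
    subst e1 e2
    rfl
  · intro D hD
    rw [mem_filter, mem_ZB] at hD
    obtain ⟨c, E, h1, h2, h3, h4⟩ := ex_dec hD.2
    have hn : nrm D = nrm E * nrm c ^ 3 := by rw [h4, nrm_mul, nrm_pow']
    have hc0 : 0 < nrm c := nrm_pos_of h1
    have hE0 : 0 < nrm E := nrm_pos_of h2
    refine ⟨⟨c, E⟩, ?_, h4.symm⟩
    rw [mem_sigma, mem_filter, mem_filter, mem_ZB, mem_ZB]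
    refine ⟨⟨?_, h1⟩, ?_, h2, h3⟩
    · have h5 : nrm c ≤ nrm D := by
        rw [hn]
        calc nrm c = nrm c ^ 1 := (pow_one _).symm
          _ ≤ nrm c ^ 3 := Nat.pow_le_pow_right hc0 (by norm_num)
          _ ≤ nrm E * nrm c ^ 3 := Nat.le_mul_of_pos_left _ hE0
      exact h5.trans hD.1
    · rw [Nat.le_div_iff_mul_le (pow_pos hc0 3), ← hn]
      exact hD.1

end Pool.Agent.E8helper7.CTV
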