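import Pool.Agent.E8helper7.CTV.Cnt0
import Pool.Agent.E8helper7.CTV.CntD
import Pool.Agent.E8helper7.CTV.CntB

/-!
# CTV CNT0 (final)

`S_CNT0` of `Pool.Agent.E8helper20.CTV` with no hypothesis left.
-/

namespace Pool.Agent.E8helper7.CTV

theorem cnt0 : Pool.Agent.E8helper20.CTV.S_CNT0 := t_CNT0 t_DEC t_SUMB

end Pool.Agent.E8helper7.CTV
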