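import Pool.Agent.Y699.E.Csum

/-!
# Project CTV (helper20), piece CNT0: definitions and statements
-/

set_option autoImplicit false

open scoped Classical

namespace Pool.Agent.E8helper7.CTV

open Pool.Agent.Y692.QS (Ei w nr)
open Pool.Agent.Y699.E (nrm ZB)

/-- the number of the `D = 1` modulo `3` of norm at most `X` -/
noncomputable def GG (X : ℕ) : ℕ := ((ZB X).filter fun D => (3 : Ei) ∣ D - 1).card

/-- the number of the cube-free `D = 1` modulo `3` of norm at most `X` -/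
noncomputable def FF (X : ℕ) : ℕ :=
  ((ZB X).filter fun D => (3 : Ei) ∣ D - 1 ∧ ∀ d : Ei, d ^ 3 ∣ D → IsUnit d).card

/-- every `D = 1` modulo `3` is uniquely `c ^ 3 * E`, `c = 1` modulo `3`, `E` cube-free -/
def S_DEC : Prop := ∀ X : ℕ,
  GG X = ∑ c ∈ (ZB X).filter (fun c => (3 : Ei) ∣ c - 1), FF (X / nrm c ^ 3)

/-- the sum of `N(c) ^ (-3)` over `c ≠ 1` is small -/
def S_SUMB : Prop := ∀ X : ℕ,
  ∑ c ∈ (ZB X).filter (fun c => (3 : Ei) ∣ c - 1 ∧ c ≠ 1), 1 / (nrm c : ℝ) ^ 3 ≤ 1 / 2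

end Pool.Agent.E8helper7.CTV
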