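import Pool.Agent.E8helper7.CTV.CntA
import Pool.Agent.E8helper7.CTV.CntS

/-!
# Project CTV (helper20), piece CNT0: the elements congruent to one modulo three
-/

set_option autoImplicit false

open scoped Classical

namespace Pool.Agent.E8helper7.CTV

open Finset Filter Topology MeasureTheory
open Pool.Agent.Y692.QS (Ei w nr int_dvd)
open Pool.Agent.Y699.E (nrm ZB)
open Pool.Agent.Y699.E.Lat

/-- the residue class -/
def RC (x y : ℤ) : Prop := (3 : ℤ) ∣ x - 1 ∧ (3 : ℤ) ∣ y

theorem rc_iff (x y : ℤ) : (3 : Ei) ∣ (⟨x, y⟩ : Ei) - 1 ↔ RC x y := by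
  have h := int_dvd (n := 3) (α := (⟨x, y⟩ : Ei) - 1)
  have e : ((3 : ℤ) : Ei) = 3 := by norm_num
  rw [e] at h
  rw [h]
  unfold RC
  have e1 : ((⟨x, y⟩ : Ei) - 1).re = x - 1 := by
    rw [QuadraticAlgebra.re_sub]; rfl
  have e2 : ((⟨x, y⟩ : Ei) - 1).im = y := by
    rw [QuadraticAlgebra.im_sub]
    show y - 0 = y
    ring
  rw [e1, e2]

theorem GG_eq (X : ℕ) : GG X = ((ell X).filter fun p => RC p.1 p.2).card := by
  unfold GG ZB
  rw [Finset.filter_map, Finset.card_map]
  congr 1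
  refine Finset.filter_congr fun p _ => ?_
  exact rc_iff p.1 p.2

theorem GG_near (X : ℕ) : |(GG X : ℝ) - ((ell X).card : ℝ) / 9| ≤ 9 * (3 * √X + 1) := by
  set f : ℤ → ℤ → ℂ := fun x y => (if RC x y then 1 else 0) - 1 / 9 with hf
  have hp1 : ∀ x y, f (x + ((3 : ℕ) : ℤ)) y = f x y := by
    intro x y
    have : RC (x + ((3 : ℕ) : ℤ)) y ↔ RC x y := by
      unfold RC; push_cast; constructor <;> rintro ⟨h1, h2⟩ <;> exact ⟨by omega, h2⟩
    simp only [hf, this]
  have hp2 : ∀ x y, f x (y + ((3 : ℕ) : ℤ)) = f x y := by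
    intro x y
    have : RC x (y + ((3 : ℕ) : ℤ)) ↔ RC x y := by
      unfold RC; push_cast; constructor <;> rintro ⟨h1, h2⟩ <;> exact ⟨h1, by omega⟩
    simp only [hf, this]
  have h0 : ∑ i ∈ range 3, ∑ j ∈ range 3, f i j = 0 := by
    have r00 : ¬ RC 0 0 := by unfold RC; decide
    have r01 : ¬ RC 0 1 := by unfold RC; decide
    have r02 : ¬ RC 0 2 := by unfold RC; decide
    have r10 : RC 1 0 := by unfold RC; decide
    have r11 : ¬ RC 1 1 := by unfold RC; decide
    have r12 : ¬ RC 1 2 := by unfold RC; decide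
    have r20 : ¬ RC 2 0 := by unfold RC; decide
    have r21 : ¬ RC 2 1 := by unfold RC; decide
    have r22 : ¬ RC 2 2 := by unfold RC; decide
    simp only [Finset.sum_range_succ, Finset.sum_range_zero, hf, Nat.cast_zero, Nat.cast_one,
      Nat.cast_ofNat, r00, r01, r02, r10, r11, r12, r20, r21, r22, if_true, if_false]
    norm_num
  have hB : ∀ x y, ‖f x y‖ ≤ 1 := by
    intro x y
    simp only [hf]
    split_ifs
    · have : (1 : ℂ) - 1 / 9 = ((8 / 9 : ℝ) : ℂ) := by push_cast; norm_num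
      rw [this, Complex.norm_real]
      norm_num
    · have : (0 : ℂ) - 1 / 9 = ((-(1 / 9) : ℝ) : ℂ) := by push_cast; norm_num
      rw [this, Complex.norm_real]
      norm_num
  have h := ell_bound (N := 3) (by norm_num) hp1 hp2 h0 hB X
  have e : ∑ p ∈ ell X, f p.1 p.2 = (((GG X : ℝ) - ((ell X).card : ℝ) / 9 : ℝ) : ℂ) := by
    simp only [hf]
    rw [Finset.sum_sub_distrib, Finset.sum_ite, Finset.sum_const_zero, add_zero, Finset.sum_const,
      Finset.sum_const, ← GG_eq]
    simp only [nsmul_eq_mul, mul_one]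
    push_cast
    ring
  rw [e, Complex.norm_real, Real.norm_eq_abs] at h
  calc _ ≤ 3 * ((3 : ℕ) : ℝ) * (3 * √X + 1) := h
    _ = _ := by push_cast; ring

theorem GG_lim : Tendsto (fun X : ℕ => (GG X : ℝ) / X) atTop
    (𝓝 ((volume : Measure (Fin 2 → ℝ)).real sE / 9)) := by
  have h1 := card_lim.div_const 9
  have hs : Tendsto (fun V : ℕ => (√(V : ℝ))⁻¹) atTop (𝓝 0) :=
    tendsto_inv_atTop_zero.comp (Real.tendsto_sqrt_atTop.comp tendsto_natCast_atTop_atTop)
  have h2 : Tendsto (fun V : ℕ => 36 * (√(V : ℝ))⁻¹) atTop (𝓝 0) := by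
    simpa using hs.const_mul 36
  refine (tendsto_iff_of_dist ?_).1 h1
  refine squeeze_zero' (Eventually.of_forall fun _ => dist_nonneg) ?_ h2
  filter_upwards [eventually_ge_atTop 1] with V hV
  have hV0 : (1 : ℝ) ≤ V := by exact_mod_cast hV
  have hs0 : 1 ≤ √(V : ℝ) := Real.one_le_sqrt.2 hV0
  have h3 := GG_near V
  have e : ((ell V).card : ℝ) / V / 9 - (GG V : ℝ) / V =
      -(((GG V : ℝ) - ((ell V).card : ℝ) / 9) / V) := by ring
  rw [Real.dist_eq, e, abs_neg, abs_div, abs_of_nonneg (by positivity : (0 : ℝ) ≤ V),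
    div_le_iff₀ (by positivity)]
  have e2 : 36 * (√(V : ℝ))⁻¹ * V = 36 * √V := by
    have : (V : ℝ) = √V * √V := (Real.mul_self_sqrt (by positivity)).symm
    rw [mul_assoc]
    congr 1
    rw [inv_mul_eq_div, div_eq_iff (by positivity)]
    exact this
  rw [e2]
  linarith

theorem GG_le (X : ℕ) : (GG X : ℝ) ≤ 16 * X := by
  rcases Nat.eq_zero_or_pos X with h | h
  · subst h
    have : GG 0 = 0 := by
      rw [GG_eq, Finset.card_eq_zero, Finset.filter_eq_empty_iff]
      rintro ⟨x, y⟩ hp ⟨h1, h2⟩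
      rw [mem_ell] at hp
      simp only at hp h1 h2
      have hx : x = 0 := by push_cast at hp; nlinarith [sq_nonneg (2 * y - x), sq_nonneg (2 * x - y), sq_nonneg x, sq_nonneg y]
      subst hx
      omega
    rw [this]
    simp
  · have h1 : (1 : ℝ) ≤ X := by exact_mod_cast h
    have h2 : GG X ≤ (ell X).card := by
      rw [GG_eq]
      exact Finset.card_filter_le _ _
    have h3 : (GG X : ℝ) ≤ ((ell X).card : ℝ) := by exact_mod_cast h2
    have h4 := card_ell_le X
    have h5 : 1 ≤ √(X : ℝ) := Real.one_le_sqrt.2 h1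
    have h6 : √(X : ℝ) * √X = X := Real.mul_self_sqrt (by positivity)
    nlinarith

end Pool.Agent.E8helper7.CTV
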