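import Pool.Agent.E8helper7.CTV.CntG

/-!
# Project CTV (helper20), piece CNT0: the limit
-/

set_option autoImplicit false

open scoped Classical

namespace Pool.Agent.E8helper7.CTV

open Finset Filter Topology MeasureTheory
open Pool.Agent.Y692.QS (Ei w nr)
open Pool.Agent.Y699.E (nrm ZB mem_ZB nrm_cast)
open Pool.Agent.Y699.E.Lat

/-- the elements `c ≠ 1`, `c = 1` modulo `3`, of norm at most `X` -/
noncomputable def PP (X : ℕ) : Finset Ei := (ZB X).filter fun c => (3 : Ei) ∣ c - 1 ∧ c ≠ 1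

theorem mem_PP {X : ℕ} {c : Ei} : c ∈ PP X ↔ nrm c ≤ X ∧ (3 : Ei) ∣ c - 1 ∧ c ≠ 1 := by
  unfold PP
  rw [mem_filter, mem_ZB]

theorem nrm_one' : nrm (1 : Ei) = 1 := by decide

theorem nrm_pos_of {c : Ei} (h : (3 : Ei) ∣ c - 1) : 0 < nrm c := by
  rcases Nat.eq_zero_or_pos (nrm c) with h0 | h0
  · exfalso
    have h1 : nr c = 0 := by rw [← nrm_cast, h0]; rfl
    have h2 : c = 0 := Pool.Agent.Y692.QS.nr_zero_iff.1 h1
    subst h2
    have h3 : (3 : Ei) ∣ 1 := by
      have := (dvd_neg (a := (3 : Ei)) (b := 1)).1 (by simpa using h)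
      exact this
    have h4 := isUnit_of_dvd_one h3
    rw [Pool.Agent.Y692.QS.isUnit_iff] at h4
    revert h4
    decide
  · exact h0

theorem PP_mono {X Y : ℕ} (h : X ≤ Y) : PP X ⊆ PP Y := by
  intro c hc
  rw [mem_PP] at hc ⊢
  exact ⟨hc.1.trans h, hc.2⟩

theorem FF_zero : FF 0 = 0 := by
  unfold FF
  rw [card_eq_zero, filter_eq_empty_iff]
  rintro D hD ⟨h1, -⟩
  rw [mem_ZB] at hD
  have := nrm_pos_of h1
  omega

theorem FF_le_GG (X : ℕ) : FF X ≤ GG X := by
  unfold FF GG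
  exact card_le_card fun D hD => by
    rw [mem_filter] at hD ⊢
    exact ⟨hD.1, hD.2.1⟩

/-- the partial sums -/
noncomputable def sX (X : ℕ) : ℝ := ∑ c ∈ PP X, 1 / (nrm c : ℝ) ^ 3

theorem dec' (hD : S_DEC) {X : ℕ} (hX : 1 ≤ X) :
    (GG X : ℝ) = FF X + ∑ c ∈ PP X, (FF (X / nrm c ^ 3) : ℝ) := by
  have h1 := hD X
  have h2 : (ZB X).filter (fun c => (3 : Ei) ∣ c - 1) = insert 1 (PP X) := by
    ext c
    rw [mem_filter, mem_insert, mem_PP, mem_ZB]
    constructor
    · rintro ⟨a, b⟩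
      by_cases hc : c = 1
      · exact Or.inl hc
      · exact Or.inr ⟨a, b, hc⟩
    · rintro (rfl | ⟨a, b, -⟩)
      · exact ⟨by rw [nrm_one']; exact hX, by simp⟩
      · exact ⟨a, b⟩
  rw [h2, sum_insert (by rw [mem_PP]; simp), nrm_one', one_pow, Nat.div_one] at h1
  rw [h1]
  push_cast
  rfl

/-- one step of the contraction -/
theorem step (hD : S_DEC) {g C s : ℝ} (hC : 0 ≤ C) (hg : g = C + C * s) (_hs0 : 0 ≤ s)
    (hs : s ≤ 1 / 2) (hsX : ∀ X, sX X ≤ s) (hlim : ∀ δ : ℝ, 0 < δ → ∃ Z : ℕ, s - δ ≤ sX Z)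
    (hG : ∀ δ : ℝ, 0 < δ → ∃ K : ℝ, 0 ≤ K ∧ ∀ X : ℕ, |(GG X : ℝ) - g * X| ≤ δ * X + K)
    {ε : ℝ} (hε : 0 < ε) (h : ∃ K : ℝ, 0 ≤ K ∧ ∀ X : ℕ, |(FF X : ℝ) - C * X| ≤ ε * X + K) :
    ∃ K : ℝ, 0 ≤ K ∧ ∀ X : ℕ, |(FF X : ℝ) - C * X| ≤ 3 / 4 * ε * X + K := by
  obtain ⟨K, hK0, hK⟩ := h
  have hQ : 0 < 8 * (K + 2 * C + 1) := by positivity
  obtain ⟨Z, hZ⟩ := hlim (ε / (8 * (K + 2 * C + 1))) (by positivity)
  set δ := ε / (8 * (K + 2 * C + 1)) with hδ
  have hδ0 : 0 < δ := by positivity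
  have hδ1 : (K + 2 * C + 1) * δ = ε / 8 := by
    rw [hδ]
    field_simp
  obtain ⟨K1, hK10, hK1⟩ := hG (ε / 8) (by positivity)
  refine ⟨K1 + (K + C) * (PP Z).card + C * Z, by positivity, fun X => ?_⟩
  rcases Nat.eq_zero_or_pos X with hX0 | hX0
  · subst hX0
    rw [FF_zero]
    simp
    positivity
  have hXr : (0 : ℝ) < X := by exact_mod_cast hX0
  -- the terms
  have hterm : ∀ c ∈ PP X, |(FF (X / nrm c ^ 3) : ℝ) - C * (X * (1 / (nrm c : ℝ) ^ 3))| ≤
      ε * (X * (1 / (nrm c : ℝ) ^ 3)) +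
        (K + C) * (if nrm c ≤ Z then 1 else X * (1 / (nrm c : ℝ) ^ 3)) := by
    intro c hc
    obtain ⟨hc1, hc2, hc3⟩ := mem_PP.1 hc
    have hn : 0 < nrm c := nrm_pos_of hc2
    have hn3 : 0 < nrm c ^ 3 := by positivity
    have hnr : (0 : ℝ) < (nrm c : ℝ) ^ 3 := by positivity
    set y : ℝ := X * (1 / (nrm c : ℝ) ^ 3) with hy
    have hy0 : 0 < y := by positivity
    have hy1 : y = (X : ℝ) / ((nrm c ^ 3 : ℕ) : ℝ) := by rw [hy]; push_cast; ring
    set Y := X / nrm c ^ 3 with hY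
    have hYle : (Y : ℝ) ≤ y := by
      rw [hy1]
      exact Nat.cast_div_le
    have hYlt : y < Y + 1 := by
      rw [hy1, div_lt_iff₀ (by positivity)]
      have h20 := Nat.lt_mul_div_succ X hn3
      rw [mul_comm] at h20
      rw [hY]
      exact_mod_cast h20
    rcases Nat.eq_zero_or_pos Y with h0 | h0
    · rw [h0, FF_zero]
      rw [h0] at hYlt
      simp only [Nat.cast_zero, zero_add, zero_sub, abs_neg] at hYlt ⊢
      rw [abs_of_nonneg (by positivity)]
      split_ifs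
      · nlinarith [mul_pos hε hy0]
      · nlinarith [mul_pos hε hy0, mul_nonneg hK0 hy0.le]
    · have hY1 : (1 : ℝ) ≤ Y := by exact_mod_cast h0
      have h4 : |(FF Y : ℝ) - C * y| ≤ ε * y + (K + C) := by
        have h5 := hK Y
        have h6 : |C * (Y : ℝ) - C * y| ≤ C := by
          rw [← mul_sub, abs_mul, abs_of_nonneg hC]
          have : |(Y : ℝ) - y| ≤ 1 := by
            rw [abs_le]
            constructor <;> linarith
          nlinarith
        calc |(FF Y : ℝ) - C * y| = |((FF Y : ℝ) - C * Y) + (C * (Y : ℝ) - C * y)| := by ring_nf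
          _ ≤ |(FF Y : ℝ) - C * Y| + |C * (Y : ℝ) - C * y| := abs_add_le _ _
          _ ≤ (ε * Y + K) + C := add_le_add h5 h6
          _ ≤ ε * y + (K + C) := by nlinarith
      split_ifs
      · linarith
      · have h7 : 1 ≤ y := hY1.trans hYle
        have h8 : (K + C) * 1 ≤ (K + C) * y := mul_le_mul_of_nonneg_left h7 (by positivity)
        linarith
  -- the sum of the last parts
  have hsum : ∑ c ∈ PP X, (if nrm c ≤ Z then (1 : ℝ) else X * (1 / (nrm c : ℝ) ^ 3)) ≤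
      (PP Z).card + X * δ := by
    rw [sum_ite, sum_const, nsmul_eq_mul, mul_one, ← mul_sum]
    have h5 : ((PP X).filter fun c => nrm c ≤ Z).card ≤ (PP Z).card := by
      refine card_le_card fun c hc => ?_
      rw [mem_filter, mem_PP] at hc
      rw [mem_PP]
      exact ⟨hc.2, hc.1.2⟩
    have h6 : ∑ c ∈ (PP X).filter (fun c => ¬ nrm c ≤ Z), 1 / (nrm c : ℝ) ^ 3 ≤ δ := by
      have h7 : Disjoint (PP Z) ((PP X).filter fun c => ¬ nrm c ≤ Z) := by
        rw [disjoint_left]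
        intro c hc hc'
        exact (mem_filter.1 hc').2 (mem_PP.1 hc).1
      have h8 : PP Z ∪ (PP X).filter (fun c => ¬ nrm c ≤ Z) ⊆ PP (max X Z) := by
        intro c hc
        rcases mem_union.1 hc with hc | hc
        · exact PP_mono (le_max_right _ _) hc
        · exact PP_mono (le_max_left _ _) (mem_filter.1 hc).1
      have h9 := sum_le_sum_of_subset_of_nonneg (f := fun c => 1 / (nrm c : ℝ) ^ 3) h8
        (fun _ _ _ => by positivity)
      rw [sum_union h7] at h9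
      have h10 := hsX (max X Z)
      unfold sX at h10 hZ
      linarith
    have h5' : (((PP X).filter fun c => nrm c ≤ Z).card : ℝ) ≤ (PP Z).card := by exact_mod_cast h5
    have h6' := mul_le_mul_of_nonneg_left h6 hXr.le
    linarith
  -- the tail
  have htail : C * X * (s - sX X) ≤ C * δ * X + C * Z := by
    rcases le_total Z X with hZX | hZX
    · have h5 : sX Z ≤ sX X := sum_le_sum_of_subset_of_nonneg (PP_mono hZX)
        (fun _ _ _ => by positivity)
      have h6 : s - sX X ≤ δ := by linarith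
      have h7 : C * X * (s - sX X) ≤ C * X * δ := mul_le_mul_of_nonneg_left h6 (by positivity)
      have h8 : 0 ≤ C * Z := by positivity
      linarith
    · have h5 : 0 ≤ sX X := sum_nonneg fun _ _ => by positivity
      have h6 : s - sX X ≤ 1 := by linarith
      have h7 : C * X * (s - sX X) ≤ C * X * 1 := mul_le_mul_of_nonneg_left h6 (by positivity)
      have h8 : (X : ℝ) ≤ Z := by exact_mod_cast hZX
      have h9 : C * X ≤ C * Z := mul_le_mul_of_nonneg_left h8 hC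
      have h10 : 0 ≤ C * δ * X := by positivity
      linarith
  have htail0 : 0 ≤ C * X * (s - sX X) := mul_nonneg (by positivity) (by linarith [hsX X])
  -- the identity
  have hid : (FF X : ℝ) - C * X = ((GG X : ℝ) - g * X) -
      ∑ c ∈ PP X, ((FF (X / nrm c ^ 3) : ℝ) - C * (X * (1 / (nrm c : ℝ) ^ 3))) +
      C * X * (s - sX X) := by
    have h5 : ∑ c ∈ PP X, ((FF (X / nrm c ^ 3) : ℝ) - C * (X * (1 / (nrm c : ℝ) ^ 3))) =
        ∑ c ∈ PP X, (FF (X / nrm c ^ 3) : ℝ) - C * X * sX X := by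
      rw [sum_sub_distrib]
      congr 1
      unfold sX
      rw [mul_sum]
      refine sum_congr rfl fun c _ => ?_
      ring
    rw [h5, dec' hD hX0, hg]
    ring
  have habs : |∑ c ∈ PP X, ((FF (X / nrm c ^ 3) : ℝ) - C * (X * (1 / (nrm c : ℝ) ^ 3)))| ≤
      ε * X * s + (K + C) * ((PP Z).card + X * δ) := by
    refine (abs_sum_le_sum_abs _ _).trans ((sum_le_sum hterm).trans ?_)
    rw [sum_add_distrib, ← mul_sum, ← mul_sum, ← mul_sum]
    have h5 : ε * (X * ∑ c ∈ PP X, 1 / (nrm c : ℝ) ^ 3) ≤ ε * X * s := by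
      have := hsX X
      unfold sX at this
      calc ε * (X * ∑ c ∈ PP X, 1 / (nrm c : ℝ) ^ 3) = ε * X * ∑ c ∈ PP X, 1 / (nrm c : ℝ) ^ 3 := by
            ring
        _ ≤ ε * X * s := mul_le_mul_of_nonneg_left this (by positivity)
    have h6 := mul_le_mul_of_nonneg_left hsum (by positivity : 0 ≤ K + C)
    linarith
  have hfin : |(FF X : ℝ) - C * X| ≤ (ε / 8 * X + K1) +
      (ε * X * s + (K + C) * ((PP Z).card + X * δ)) + (C * δ * X + C * Z) := by
    rw [hid]
    refine (abs_add_le _ _).trans (add_le_add ((abs_sub _ _).trans (add_le_add (hK1 X) habs)) ?_)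
    rw [abs_of_nonneg htail0]
    exact htail
  have h11 : ε * X * s ≤ ε * X * (1 / 2) := mul_le_mul_of_nonneg_left hs (by positivity)
  have h12 : (K + 2 * C + 1) * δ * X = ε / 8 * X := by rw [hδ1]
  have h13 : 0 ≤ δ * X := by positivity
  nlinarith

end Pool.Agent.E8helper7.CTV
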